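import Mathlib
import Pool.Agent.P8H79.RC.Defs

/-! Package POL, part 1: the chromatic polynomials of the induced subgraphs as polynomials. -/

set_option autoImplicit false

namespace Pool.Agent.P8H68.RC

open Finset Polynomial Pool.Agent.P8H79.RC

/-- proper colourings of the subgraph induced on `T`, colours in `α` -/
def Pc {V : Type} (G : SimpleGraph V) (T : Finset V) (α : Type) : Type :=
  {f : T → α // ∀ x y : T, G.Adj x.1 y.1 → f x ≠ f y}

theorem card_Pc {V : Type} (G : SimpleGraph V) (T : Finset V) (q : ℕ) :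
    cntOn G T q = Nat.card (Pc G T (Fin q)) := by
  unfold cntOn
  refine Nat.card_congr ⟨fun c => ⟨fun x => c ⟨x.1, x.2⟩, fun x y h => c.valid h⟩,
    fun f => SimpleGraph.Coloring.mk (fun x => f.1 ⟨x.1, x.2⟩) (fun {x y} h => f.2 _ _ h), ?_, ?_⟩
  · intro c
    ext x
    rfl
  · intro f
    rfl

theorem card_Pc_congr {V : Type} (G : SimpleGraph V) (T : Finset V) {α β : Type} (e : α ≃ β) :
    Nat.card (Pc G T α) = Nat.card (Pc G T β) := by
  refine Nat.card_congr ⟨fun f => ⟨fun x => e (f.1 x), fun x y h => ?_⟩,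
    fun f => ⟨fun x => e.symm (f.1 x), fun x y h => ?_⟩, ?_, ?_⟩
  · have := f.2 x y h
    simpa using this
  · have := f.2 x y h
    simpa using this
  · intro f
    exact Subtype.ext (by funext x; simp)
  · intro f
    exact Subtype.ext (by funext x; simp)

instance {V : Type} (G : SimpleGraph V) (T : Finset V) (α : Type) [Finite α] : Finite (Pc G T α) := by
  unfold Pc
  infer_instance

/-- the colourings with `α ⊕ β` from a pair of colourings -/
def glue {V : Type} [DecidableEq V] (G : SimpleGraph V) (T : Finset V) (α β : Type)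
    (s : Σ U : {U : Finset V // U ∈ T.powerset}, Pc G U.1 α × Pc G (T \ U.1) β) :
    Pc G T (α ⊕ β) :=
  ⟨fun x => if h : x.1 ∈ s.1.1 then Sum.inl (s.2.1.1 ⟨x.1, h⟩) else
      Sum.inr (s.2.2.1 ⟨x.1, Finset.mem_sdiff.2 ⟨x.2, h⟩⟩), by
    intro x y hxy
    by_cases hx : x.1 ∈ s.1.1 <;> by_cases hy : y.1 ∈ s.1.1
    · simp only [hx, hy, dif_pos]
      intro h
      exact s.2.1.2 _ _ hxy (Sum.inl_injective h)
    · simp [hx, hy]
    · simp [hx, hy]
    · simp only [hx, hy, dif_neg, not_false_eq_true]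
      intro h
      exact s.2.2.2 _ _ hxy (Sum.inr_injective h)⟩

theorem glue_bij {V : Type} [DecidableEq V] (G : SimpleGraph V) (T : Finset V) (α β : Type) :
    Function.Bijective (glue G T α β) := by
  constructor
  · rintro ⟨⟨U, hU⟩, f, g⟩ ⟨⟨U', hU'⟩, f', g'⟩ h
    have hv : ∀ x : T, (glue G T α β ⟨⟨U, hU⟩, f, g⟩).1 x = (glue G T α β ⟨⟨U', hU'⟩, f', g'⟩).1 x :=
      fun x => by rw [h]
    simp only [glue] at hv
    have hUU : U = U' := by
      ext x
      constructor
      · intro hx
        by_contra hx'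
        have := hv ⟨x, Finset.mem_powerset.1 hU hx⟩
        simp [hx, hx'] at this
      · intro hx
        by_contra hx'
        have := hv ⟨x, Finset.mem_powerset.1 hU' hx⟩
        simp [hx, hx'] at this
    subst hUU
    have hf : f = f' := by
      apply Subtype.ext
      funext x
      have := hv ⟨x.1, Finset.mem_powerset.1 hU x.2⟩
      simpa using this
    have hg : g = g' := by
      apply Subtype.ext
      funext x
      have h1 := Finset.mem_sdiff.1 x.2
      have := hv ⟨x.1, h1.1⟩
      simp only [h1.2, dif_neg, not_false_eq_true] at this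
      exact Sum.inr_injective this
    rw [hf, hg]
  · intro c
    classical
    let U : Finset V := T.attach.filter (fun x => (c.1 x).isLeft = true) |>.map
      ⟨Subtype.val, Subtype.val_injective⟩
    have hUT : U ∈ T.powerset := by
      rw [Finset.mem_powerset]
      intro x hx
      simp only [U, Finset.mem_map, Finset.mem_filter] at hx
      obtain ⟨y, -, rfl⟩ := hx
      exact y.2
    have hmem : ∀ (x : V) (hx : x ∈ T), x ∈ U ↔ (c.1 ⟨x, hx⟩).isLeft = true := by
      intro x hx
      simp only [U, Finset.mem_map, Finset.mem_filter, Function.Embedding.coeFn_mk]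
      constructor
      · rintro ⟨y, ⟨-, h⟩, rfl⟩
        exact h
      · intro h
        exact ⟨⟨x, hx⟩, ⟨Finset.mem_attach _ _, h⟩, rfl⟩
    have hL : ∀ x : U, (c.1 ⟨x.1, Finset.mem_powerset.1 hUT x.2⟩).isLeft = true :=
      fun x => (hmem _ _).1 x.2
    have hR : ∀ x : (T \ U : Finset V), (c.1 ⟨x.1, (Finset.mem_sdiff.1 x.2).1⟩).isRight = true := by
      intro x
      have h1 := Finset.mem_sdiff.1 x.2
      have h2 := mt (hmem _ h1.1).2 h1.2
      simpa using h2
    refine ⟨⟨⟨U, hUT⟩, ⟨fun x => (c.1 ⟨x.1, Finset.mem_powerset.1 hUT x.2⟩).getLeft (hL x), ?_⟩,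
      ⟨fun x => (c.1 ⟨x.1, (Finset.mem_sdiff.1 x.2).1⟩).getRight (hR x), ?_⟩⟩, ?_⟩
    · intro x y hxy h
      refine c.2 ⟨x.1, Finset.mem_powerset.1 hUT x.2⟩ ⟨y.1, Finset.mem_powerset.1 hUT y.2⟩ hxy ?_
      rw [← Sum.inl_getLeft _ (hL x), ← Sum.inl_getLeft _ (hL y)]
      exact congrArg Sum.inl h
    · intro x y hxy h
      refine c.2 ⟨x.1, (Finset.mem_sdiff.1 x.2).1⟩ ⟨y.1, (Finset.mem_sdiff.1 y.2).1⟩ hxy ?_
      rw [← Sum.inr_getRight _ (hR x), ← Sum.inr_getRight _ (hR y)]
      exact congrArg Sum.inr h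
    · apply Subtype.ext
      funext x
      simp only [glue]
      split_ifs with hx
      · exact Sum.inl_getLeft _ _
      · exact Sum.inr_getRight _ _

theorem vandermonde {V : Type} [DecidableEq V] (G : SimpleGraph V) (T : Finset V) (a b : ℕ) :
    cntOn G T (a + b) = ∑ U ∈ T.powerset, cntOn G U a * cntOn G (T \ U) b := by
  rw [card_Pc, card_Pc_congr G T finSumFinEquiv.symm,
    ← Nat.card_congr (Equiv.ofBijective _ (glue_bij G T (Fin a) (Fin b))), Nat.card_sigma,
    Finset.sum_coe_sort T.powerset (fun U => Nat.card (Pc G U (Fin a) × Pc G (T \ U) (Fin b)))]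
  refine Finset.sum_congr rfl fun U hU => ?_
  rw [Nat.card_prod, card_Pc, card_Pc]

theorem cnt_empty {V : Type} (G : SimpleGraph V) (q : ℕ) : cntOn G ∅ q = 1 := by
  rw [card_Pc]
  have : Unique (Pc G ∅ (Fin q)) :=
    { default := ⟨fun x => absurd x.2 (Finset.notMem_empty _), fun x => absurd x.2 (Finset.notMem_empty _)⟩
      uniq := fun f => Subtype.ext (funext fun x => absurd x.2 (Finset.notMem_empty _)) }
  exact Nat.card_unique

theorem cnt_zero {V : Type} (G : SimpleGraph V) (T : Finset V) (hT : T.Nonempty) :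
    cntOn G T 0 = 0 := by
  rw [card_Pc]
  obtain ⟨v, hv⟩ := hT
  have : IsEmpty (Pc G T (Fin 0)) := ⟨fun f => (f.1 ⟨v, hv⟩).elim0⟩
  exact Nat.card_of_isEmpty

theorem cnt_single {V : Type} (G : SimpleGraph V) (v : V) (q : ℕ) :
    cntOn G {v} q = q := by
  rw [card_Pc]
  have e : Pc G {v} (Fin q) ≃ Fin q :=
    { toFun := fun f => f.1 ⟨v, Finset.mem_singleton_self v⟩
      invFun := fun a => ⟨fun _ => a, fun x y h => by
        have hx := Finset.mem_singleton.1 x.2
        have hy := Finset.mem_singleton.1 y.2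
        rw [hx, hy] at h
        exact absurd h (G.irrefl)⟩
      left_inv := by
        intro f
        apply Subtype.ext
        funext x
        have hx : x = ⟨v, Finset.mem_singleton_self v⟩ := Subtype.ext (Finset.mem_singleton.1 x.2)
        rw [hx]
      right_inv := fun a => rfl }
  rw [Nat.card_congr e, Nat.card_fin]

end Pool.Agent.P8H68.RC
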