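import Mathlib
import Pool.Agent.P8H68.RC.Pol1

/-! Package POL, part 2: the reversed chromatic polynomials. -/

set_option autoImplicit false

namespace Pool.Agent.P8H68.RC

open Finset Polynomial Pool.Agent.P8H79.RC fwdDiff

section

variable {V : Type} [DecidableEq V] (G : SimpleGraph V)

/-- the counting function with rational values -/
noncomputable def cq (T : Finset V) : ℕ → ℚ := fun q => (cntOn G T q : ℚ)

theorem diff_cq (T : Finset V) :
    Δ_[1] (cq G T) = ∑ U ∈ T.powerset.erase ∅, (cntOn G U 1 : ℚ) • cq G (T \ U) := by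
  funext q
  have h := vandermonde G T 1 q
  rw [← Finset.add_sum_erase _ _ (Finset.empty_mem_powerset T), cnt_empty, Finset.sdiff_empty,
    one_mul] at h
  have h' : (cntOn G T (q + 1) : ℚ) = cntOn G T q +
      ∑ U ∈ T.powerset.erase ∅, (cntOn G U 1 : ℚ) * cntOn G (T \ U) q := by
    rw [add_comm q 1, h]
    push_cast
    rfl
  simp only [fwdDiff, cq, Finset.sum_apply, Pi.smul_apply, smul_eq_mul]
  rw [h']
  ring

theorem diff_zero (n : ℕ) : ∀ T : Finset V, T.card < n → (fwdDiff 1)^[n] (cq G T) = 0 := by
  induction n with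
  | zero => intro T hT; omega
  | succ n ih =>
    intro T hT
    rw [Function.iterate_succ_apply, diff_cq, fwdDiff_iter_finsetSum]
    refine Finset.sum_eq_zero fun U hU => ?_
    rw [fwdDiff_iter_const_smul]
    have hU1 := Finset.mem_erase.1 hU
    have hU2 := Finset.mem_powerset.1 hU1.2
    have hU3 : 0 < U.card := Finset.card_pos.2 (Finset.nonempty_iff_ne_empty.2 hU1.1)
    have h1 : (T \ U).card < n := by
      rw [Finset.card_sdiff_of_subset hU2]
      have := Finset.card_le_card hU2
      omega
    rw [ih _ h1, smul_zero]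

theorem exists_poly (T : Finset V) : ∃ p : ℚ[X], p.natDegree ≤ T.card ∧
    ∀ q : ℕ, p.eval (q : ℚ) = cntOn G T q := by
  refine ⟨∑ k ∈ Finset.range (T.card + 1),
    C ((fwdDiff 1)^[k] (cq G T) 0 / (k.factorial : ℚ)) * descPochhammer ℚ k, ?_, ?_⟩
  · refine Polynomial.natDegree_sum_le_of_forall_le _ _ fun k hk => ?_
    refine (Polynomial.natDegree_C_mul_le _ _).trans ?_
    rw [descPochhammer_natDegree]
    have := Finset.mem_range.1 hk
    omega
  · intro q
    have h1 := shift_eq_sum_fwdDiff_iter 1 (cq G T) q 0
    rw [smul_eq_mul, mul_one, zero_add] at h1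
    have h2 : (cntOn G T q : ℚ) = cq G T q := rfl
    rw [h2, h1, Polynomial.eval_finsetSum]
    have h3 : ∀ k, (C ((fwdDiff 1)^[k] (cq G T) 0 / (k.factorial : ℚ)) * descPochhammer ℚ k).eval (q : ℚ) =
        q.choose k • (fwdDiff 1)^[k] (cq G T) 0 := by
      intro k
      rw [eval_mul, eval_C, descPochhammer_eval_eq_descFactorial, nsmul_eq_mul,
        Nat.descFactorial_eq_factorial_mul_choose]
      have : (k.factorial : ℚ) ≠ 0 := by positivity
      push_cast
      field_simp
    rw [Finset.sum_congr rfl fun k _ => h3 k]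
    rcases le_total q T.card with h | h
    · refine (Finset.sum_subset (Finset.range_mono (by omega)) fun k hk hk' => ?_).symm
      rw [Nat.choose_eq_zero_of_lt (by simpa using hk'), zero_smul]
    · refine Finset.sum_subset (Finset.range_mono (by omega)) fun k hk hk' => ?_
      rw [diff_zero G k T (by simpa using hk')]
      simp

/-- the chromatic polynomial of the subgraph induced on `T` -/
noncomputable def P (T : Finset V) : ℚ[X] := (exists_poly G T).choose

theorem P_deg (T : Finset V) : (P G T).natDegree ≤ T.card := (exists_poly G T).choose_spec.1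

theorem P_eval (T : Finset V) (q : ℕ) : (P G T).eval (q : ℚ) = cntOn G T q :=
  (exists_poly G T).choose_spec.2 q

/-- polynomials which agree at the natural numbers -/
theorem ext_nat {p r : ℚ[X]} (h : ∀ q : ℕ, p.eval (q : ℚ) = r.eval (q : ℚ)) : p = r := by
  refine Polynomial.eq_of_infinite_eval_eq p r ?_
  refine (Set.infinite_range_of_injective (f := fun q : ℕ => (q : ℚ)) Nat.cast_injective).mono ?_
  rintro _ ⟨q, rfl⟩
  exact h q

theorem P_empty : P G ∅ = 1 := by
  refine ext_nat fun q => ?_
  rw [P_eval, cnt_empty]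
  simp

theorem P_single (v : V) : P G {v} = X := by
  refine ext_nat fun q => ?_
  rw [P_eval, cnt_single]
  simp

theorem P_zero (T : Finset V) (hT : T.Nonempty) : (P G T).eval 0 = 0 := by
  have := P_eval G T 0
  rw [cnt_zero G T hT] at this
  simpa using this

/-- the linear coefficient -/
noncomputable def w (T : Finset V) : ℚ := (derivative (P G T)).eval 0

theorem w_empty : w G ∅ = 0 := by
  rw [w, P_empty]
  simp

theorem w_single (v : V) : w G {v} = 1 := by
  rw [w, P_single]
  simp

theorem shift_id (T : Finset V) (b : ℕ) :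
    (P G T).comp (X + C (b : ℚ)) = ∑ U ∈ T.powerset, P G U * C ((P G (T \ U)).eval (b : ℚ)) := by
  refine ext_nat fun a => ?_
  have h := vandermonde G T a b
  rw [eval_comp, eval_add, eval_X, eval_C, Polynomial.eval_finsetSum]
  have h1 : ((a : ℚ) + (b : ℚ)) = ((a + b : ℕ) : ℚ) := by push_cast; rfl
  rw [h1, P_eval, h]
  push_cast
  refine Finset.sum_congr rfl fun U _ => ?_
  rw [eval_mul, eval_C, P_eval, P_eval]

theorem deriv_id (T : Finset V) :
    derivative (P G T) = ∑ U ∈ T.powerset, C (w G U) * P G (T \ U) := by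
  refine ext_nat fun b => ?_
  have h := congrArg (fun p => (derivative p).eval 0) (shift_id G T b)
  simp only [derivative_comp, derivative_sum, derivative_mul, derivative_C, mul_zero, add_zero,
    derivative_add, derivative_X, one_mul] at h
  rw [Polynomial.eval_comp, Polynomial.eval_finsetSum] at h
  simp only [eval_add, eval_X, eval_C, zero_add, eval_mul] at h
  rw [h, Polynomial.eval_finsetSum]
  refine Finset.sum_congr rfl fun U _ => ?_
  rw [eval_mul, eval_C]
  rfl

end

end Pool.Agent.P8H68.RC
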