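import Mathlib
import Pool.Agent.P8H79.RC.Stm
import Pool.Agent.P8H68.RC.Pol2

/-! Package POL: the reversed chromatic polynomials of the induced subgraphs. -/

set_option autoImplicit false

namespace Pool.Agent.P8H68.RC

open Finset Polynomial Pool.Agent.P8H79.RC

theorem ext_deriv {p r : ℚ[X]} (h : derivative p = derivative r) (h0 : p.eval 0 = r.eval 0) :
    p = r := by
  have h1 : derivative (p - r) = 0 := by rw [derivative_sub, h, sub_self]
  have h2 := Polynomial.natDegree_eq_zero_of_derivative_eq_zero h1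
  rw [Polynomial.natDegree_eq_zero] at h2
  obtain ⟨c, hc⟩ := h2
  have h3 : (p - r).eval 0 = 0 := by rw [eval_sub, h0, sub_self]
  rw [← hc, eval_C] at h3
  rw [h3, C_0] at hc
  exact sub_eq_zero.1 hc.symm

theorem ext_inv {p r : ℚ[X]} (h : ∀ q : ℕ, 1 ≤ q → p.eval (1 / (q : ℚ)) = r.eval (1 / (q : ℚ))) :
    p = r := by
  refine Polynomial.eq_of_infinite_eval_eq p r ?_
  have hinj : Function.Injective (fun q : ℕ => 1 / ((q + 1 : ℕ) : ℚ)) := by
    intro a b hab
    simp only [one_div, inv_inj] at hab
    have := Nat.cast_injective (R := ℚ) hab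
    omega
  refine (Set.infinite_range_of_injective hinj).mono ?_
  rintro _ ⟨q, rfl⟩
  exact h (q + 1) (by omega)

section

variable {V : Type} [DecidableEq V] (G : SimpleGraph V)

theorem P_rec (n : ℕ) : ∀ (T : Finset V), T.card = n → ∀ v ∈ T,
    P G T = X * ∑ U ∈ T.powerset.filter (fun U => v ∈ U), C (w G U) * P G (T \ U) := by
  induction n using Nat.strong_induction_on with
  | _ n ih =>
    intro T hT v hv
    refine ext_deriv ?_ ?_
    · rw [derivative_mul, derivative_X, one_mul, derivative_sum]
      have h1 : derivative (P G T) =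
          ∑ U ∈ T.powerset.filter (fun U => v ∈ U), C (w G U) * P G (T \ U) +
          ∑ U ∈ T.powerset.filter (fun U => ¬ v ∈ U), C (w G U) * P G (T \ U) := by
        rw [deriv_id, Finset.sum_filter_add_sum_filter_not]
      rw [h1]
      congr 1
      have h2 : ∑ W ∈ T.powerset.filter (fun U => ¬ v ∈ U), C (w G W) * P G (T \ W) =
          ∑ W ∈ T.powerset.filter (fun U => ¬ v ∈ U),
            ∑ U ∈ (T \ W).powerset.filter (fun U => v ∈ U),
              X * (C (w G W) * (C (w G U) * P G ((T \ W) \ U))) := by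
        refine Finset.sum_congr rfl fun W hW => ?_
        obtain ⟨hW1, hW2⟩ := Finset.mem_filter.1 hW
        rw [Finset.mem_powerset] at hW1
        rcases W.eq_empty_or_nonempty with rfl | hne
        · simp [w_empty]
        · have hc : (T \ W).card < n := by
            rw [Finset.card_sdiff_of_subset hW1]
            have := Finset.card_le_card hW1
            have := Finset.card_pos.2 hne
            omega
          rw [ih _ hc (T \ W) rfl v (Finset.mem_sdiff.2 ⟨hv, hW2⟩), Finset.mul_sum, Finset.mul_sum]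
          refine Finset.sum_congr rfl fun U _ => ?_
          ring
      rw [h2]
      have h3 : X * ∑ U ∈ T.powerset.filter (fun U => v ∈ U), derivative (C (w G U) * P G (T \ U)) =
          ∑ U ∈ T.powerset.filter (fun U => v ∈ U), ∑ W ∈ (T \ U).powerset,
            X * (C (w G W) * (C (w G U) * P G ((T \ W) \ U))) := by
        rw [Finset.mul_sum]
        refine Finset.sum_congr rfl fun U _ => ?_
        rw [derivative_C_mul, deriv_id, Finset.mul_sum, Finset.mul_sum]
        refine Finset.sum_congr rfl fun W _ => ?_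
        have h4 : (T \ U) \ W = (T \ W) \ U := by
          ext x
          simp only [Finset.mem_sdiff]
          tauto
        rw [h4]
        ring
      rw [h3]
      refine Finset.sum_comm' fun W U => ?_
      simp only [Finset.mem_filter, Finset.mem_powerset]
      constructor
      · rintro ⟨⟨h5, h6⟩, h7, h8⟩
        refine ⟨?_, h7.trans Finset.sdiff_subset, h8⟩
        intro x hx
        refine Finset.mem_sdiff.2 ⟨h5 hx, fun hxU => ?_⟩
        exact (Finset.mem_sdiff.1 (h7 hxU)).2 hx
      · rintro ⟨h5, h6, h7⟩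
        refine ⟨⟨h5.trans Finset.sdiff_subset, fun h8 => ?_⟩, ?_, h7⟩
        · exact (Finset.mem_sdiff.1 (h5 h8)).2 h7
        · intro x hx
          refine Finset.mem_sdiff.2 ⟨h6 hx, fun hxW => ?_⟩
          exact (Finset.mem_sdiff.1 (h5 hxW)).2 hx
    · rw [P_zero G T ⟨v, hv⟩]
      simp

/-- the reversed chromatic polynomial -/
noncomputable def Z (T : Finset V) : ℚ[X] := reflect T.card (P G T)

theorem Z_eval (T : Finset V) (q : ℕ) (hq : 1 ≤ q) :
    (q : ℚ) ^ T.card * (Z G T).eval (1 / (q : ℚ)) = (P G T).eval (q : ℚ) := by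
  have hq0 : (q : ℚ) ≠ 0 := by positivity
  letI : Invertible (q : ℚ) := invertibleOfNonzero hq0
  have h := eval₂_reflect_mul_pow (RingHom.id ℚ) (q : ℚ) T.card (P G T) (P_deg G T)
  rw [invOf_eq_inv] at h
  rw [one_div, mul_comm]
  exact h

theorem Z_eval' (T : Finset V) (q : ℕ) (hq : 1 ≤ q) :
    (Z G T).eval (1 / (q : ℚ)) = (P G T).eval (q : ℚ) / (q : ℚ) ^ T.card := by
  have hq0 : (q : ℚ) ≠ 0 := by positivity
  rw [← Z_eval G T q hq]
  field_simp

theorem zfam : ZFam G (w G) (Z G) where
  one := by
    rw [Z, P_empty, Finset.card_empty]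
    exact Polynomial.reflect_one 0
  w1 := w_single G
  hrec := by
    intro T v hv
    refine ext_inv fun q hq => ?_
    have hq0 : (q : ℚ) ≠ 0 := by positivity
    rw [Z_eval' G T q hq, P_rec G T.card T rfl v hv, Polynomial.eval_mul, eval_X,
      Polynomial.eval_finsetSum, Polynomial.eval_finsetSum, Finset.mul_sum, Finset.sum_div]
    refine Finset.sum_congr rfl fun U hU => ?_
    obtain ⟨hU1, hU2⟩ := Finset.mem_filter.1 hU
    rw [Finset.mem_powerset] at hU1
    have hc : 0 < U.card := Finset.card_pos.2 ⟨v, hU2⟩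
    have hle := Finset.card_le_card hU1
    rw [eval_mul, eval_C, eval_mul, eval_mul, eval_C, eval_pow, eval_X, Z_eval' G (T \ U) q hq,
      Finset.card_sdiff_of_subset hU1]
    have e : T.card = (U.card - 1) + (T.card - U.card) + 1 := by omega
    have e2 : (q : ℚ) ^ T.card = (q : ℚ) ^ (U.card - 1) * (q : ℚ) ^ (T.card - U.card) * q := by
      conv_lhs => rw [e]
      rw [pow_succ, pow_add]
    rw [e2, one_div, inv_pow]
    field_simp
  hcnt := by
    intro T q hq
    rw [Z_eval G T q hq, P_eval]

end

/-- **Package POL.** -/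
theorem pol : S_POL := by
  intro V _ _ G
  exact ⟨w G, Z G, zfam G⟩

end Pool.Agent.P8H68.RC
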